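import Pool.Agent.H54.PM.Targets

/-!
Row TRF of the board pmf_modules (`MP_def5ca_co`): projection of a polyhedral manifold to `ℝ⁵`.
-/

set_option autoImplicit false

open scoped symmDiff

namespace Pool.Agent.H13.PMF

open Pool.Agent.H54.PM

variable {E : Type} [NormedAddCommGroup E] [NormedSpace ℝ E]

/-- the affine span of two polygons has dimension at most `5` -/
theorem span2_le [FiniteDimensional ℝ E] (A B : Set E) (a b : E) (ha : a ∈ A) (hb : b ∈ B)
    (hA : Module.finrank ℝ (vectorSpan ℝ A) = 2) (hB : Module.finrank ℝ (vectorSpan ℝ B) = 2) :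
    Module.finrank ℝ (vectorSpan ℝ (A ∪ B)) ≤ 5 := by
  classical
  have hmem : ∀ x ∈ A ∪ B, x - a ∈ vectorSpan ℝ A ⊔ vectorSpan ℝ B ⊔
      Submodule.span ℝ (({b - a} : Finset E) : Set E) := by
    intro x hx
    rcases hx with hx | hx
    · exact Submodule.mem_sup_left (Submodule.mem_sup_left (vsub_mem_vectorSpan ℝ hx ha))
    · have h1 : x - a = (x - b) + (b - a) := by abel
      rw [h1]
      refine Submodule.add_mem _ ?_ ?_
      · exact Submodule.mem_sup_left (Submodule.mem_sup_right (vsub_mem_vectorSpan ℝ hx hb))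
      · refine Submodule.mem_sup_right (Submodule.subset_span ?_)
        simp
  have hle : vectorSpan ℝ (A ∪ B) ≤ vectorSpan ℝ A ⊔ vectorSpan ℝ B ⊔
      Submodule.span ℝ (({b - a} : Finset E) : Set E) := by
    rw [vectorSpan_def, Submodule.span_le]
    rintro v ⟨x, hx, y, hy, rfl⟩
    have h1 : x -ᵥ y = (x - a) - (y - a) := by
      rw [vsub_eq_sub]
      abel
    rw [SetLike.mem_coe]
    change x -ᵥ y ∈ _
    rw [h1]
    exact Submodule.sub_mem _ (hmem x hx) (hmem y hy)
  refine (Submodule.finrank_mono hle).trans ?_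
  have e1 := Submodule.finrank_add_le_finrank_add_finrank (vectorSpan ℝ A ⊔ vectorSpan ℝ B)
    (Submodule.span ℝ (({b - a} : Finset E) : Set E))
  have e2 := Submodule.finrank_add_le_finrank_add_finrank (vectorSpan ℝ A) (vectorSpan ℝ B)
  have e3 : Module.finrank ℝ (Submodule.span ℝ (({b - a} : Finset E) : Set E)) ≤ 1 := by
    refine (finrank_span_finset_le_card _).trans ?_
    simp
  omega

open Classical in
theorem imf_ne {G : Type} [NormedAddCommGroup G] [NormedSpace ℝ G] (L : E →L[ℝ] G)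
    (F : Finset (Finset E)) (hF : F.Nonempty) : (imf L F).Nonempty := by
  unfold imf
  exact hF.image _

open Classical in
theorem gon_imf (h1 : T_TR1) {G : Type} [NormedAddCommGroup G] [NormedSpace ℝ G]
    [FiniteDimensional ℝ G] (L : E →L[ℝ] G) (F : Finset (Finset E)) (hI : Inj2 L F) :
    ∀ A' ∈ imf L F, ∃ A ∈ F, ∀ k, IsGon k A → IsGon k A' := by
  intro A' hA'
  unfold imf at hA'
  obtain ⟨A, hA, rfl⟩ := Finset.mem_image.1 hA'
  refine ⟨A, hA, (h1 E G L A ?_).1⟩
  intro x hx h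
  exact hI A hA A hA x (by rwa [Set.union_self]) h

theorem pf_TRF (h0 : T_PRJ) (h1 : T_TR1) (h2 : T_TR2) (h3 : T_TR3) (h4 : T_TR4) : T_TRF := by
  classical
  intro E _ _ _ F p hF hc hp
  obtain ⟨L, hL⟩ := h0 E
    ((F ×ˢ F).image fun q => vectorSpan ℝ ((q.1 : Set E) ∪ (q.2 : Set E))) (by
      intro V hV
      obtain ⟨q, hq, rfl⟩ := Finset.mem_image.1 hV
      rw [Finset.mem_product] at hq
      obtain ⟨k, hk⟩ := hF.gon q.1 hq.1
      obtain ⟨l, hl⟩ := hF.gon q.2 hq.2
      obtain ⟨a, ha⟩ : q.1.Nonempty := Finset.card_pos.1 (by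
        have := hk.three
        have := hk.card
        omega)
      obtain ⟨b, hb⟩ : q.2.Nonempty := Finset.card_pos.1 (by
        have := hl.three
        have := hl.card
        omega)
      exact span2_le _ _ a b (Finset.mem_coe.2 ha) (Finset.mem_coe.2 hb) hk.plane hl.plane)
  have hI : Inj2 L F := by
    intro A hA B hB x hx h
    exact hL _ (Finset.mem_image.2 ⟨(A, B), Finset.mem_product.2 ⟨hA, hB⟩, rfl⟩) x hx h
  obtain ⟨c1, c2⟩ := h2 E _ L F hI hF
  obtain ⟨φ⟩ := h3 E _ L F hI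
  obtain ⟨d1, d2⟩ := h4 E _ L F hI
  refine ⟨imf L F, ⟨?_, ?_, c1, c2, ?_⟩, ?_, ?_, d1, d2⟩
  · exact imf_ne L F hF.ne
  · intro A' hA'
    obtain ⟨A, hA, e⟩ := gon_imf h1 L F hI A' hA'
    obtain ⟨k, hk⟩ := hF.gon A hA
    exact ⟨k, e k hk⟩
  · intro x
    obtain ⟨e, he⟩ := hF.mfd (φ x)
    exact ⟨φ.transOpenPartialHomeomorph e, he⟩
  · rw [isConnected_iff_connectedSpace] at hc ⊢
    exact φ.symm.surjective.connectedSpace φ.symm.continuous
  · intro A' hA'
    obtain ⟨A, hA, e⟩ := gon_imf h1 L F hI A' hA'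
    exact e p (hp A hA)

end Pool.Agent.H13.PMF
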